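import Mathlib

open Finset

namespace Pool.Agent.Results.MP_5e3b67_co.NoLocalLipschitzInverse

/-- The discrete cube `{0,1}^n`; addition in `ZMod 2` is the exclusive or. -/
abbrev Cube (n : ℕ) := Fin n → ZMod 2

/-- The dictator function `DIC_n(x) = x_1` (the first coordinate has index `0` here). -/
def dictator {n : ℕ} [NeZero n] (x : Cube n) : ZMod 2 := x 0

/-- The parity function `XOR_n(x) = x_1 + ... + x_n`. -/
def parity {n : ℕ} (x : Cube n) : ZMod 2 := ∑ i, x i

/-- `φ` is a mapping from `DIC_n` to `XOR_n`: a bijection with `XOR_n(φ(x)) = DIC_n(x)`. -/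
def IsMapping {n : ℕ} [NeZero n] (φ : Cube n ≃ Cube n) : Prop :=
  ∀ x, parity (φ x) = dictator x

/-- `φ` is `K`-local: every output coordinate is determined by at most `K` input coordinates. -/
def IsLocal {n : ℕ} (K : ℕ) (φ : Cube n → Cube n) : Prop :=
  ∀ i : Fin n, ∃ S : Finset (Fin n), S.card ≤ K ∧
    ∀ x y : Cube n, (∀ j ∈ S, x j = y j) → φ x i = φ y i

/-- `ψ` is `L`-Lipschitz for the Hamming distance. -/
def IsLipschitz {n : ℕ} (L : ℝ) (ψ : Cube n → Cube n) : Prop :=
  ∀ x y : Cube n, (hammingDist (ψ x) (ψ y) : ℝ) ≤ L * (hammingDist x y : ℝ)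

/-- indicator vector of a set of coordinates -/
def ind {n : ℕ} (A : Finset (Fin n)) : Cube n := fun i => if i ∈ A then 1 else 0

lemma ind_apply {n : ℕ} (A : Finset (Fin n)) (i : Fin n) : ind A i = if i ∈ A then 1 else 0 := rfl

lemma core {n K : ℕ} (φ : Cube n → Cube n) (hinj : Function.Injective φ) (hloc : IsLocal K φ)
    (y : Cube n) (hy : φ 0 = y) (S : Fin n → Finset (Fin n))
    (hS : ∀ j, φ (ind (S j)) = y + Pi.single j 1) (m : ℕ) :
    ∀ A : Finset (Fin n), A.Nonempty → ∀ J : Finset (Fin n),
      (∀ j ∈ J, A ⊆ S j ∧ (S j).card ≤ A.card + m) → J.card ≤ ∑ i ∈ range (m + 1), K ^ i := by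
  induction m with
  | zero =>
    intro A hA J hJ
    simp only [zero_add, range_one, sum_singleton, pow_zero]
    rw [card_le_one]
    intro a ha b hb
    have h1 : A = S a := eq_of_subset_of_card_le (hJ a ha).1 (by simpa using (hJ a ha).2)
    have h2 : A = S b := eq_of_subset_of_card_le (hJ b hb).1 (by simpa using (hJ b hb).2)
    have h3 := hS a
    rw [← h1, h2, hS b] at h3
    have h4 := congrFun (add_left_cancel h3) b
    by_contra hab
    rw [Pi.single_eq_same, Pi.single_eq_of_ne (Ne.symm hab)] at h4
    exact absurd h4 (by decide)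
  | succ m ih =>
    intro A hA J hJ
    have hne : φ (ind A) ≠ y := by
      rw [← hy]
      intro h
      have h1 := hinj h
      obtain ⟨a, ha⟩ := hA
      have h2 := congrFun h1 a
      rw [ind_apply, if_pos ha] at h2
      rw [Pi.zero_apply] at h2
      exact absurd h2 (by decide)
    obtain ⟨z, hz⟩ := Function.ne_iff.mp hne
    obtain ⟨M, hM, hdep⟩ := hloc z
    have hsub : J.erase z ⊆ M.biUnion fun b => J.filter fun j => b ∈ S j ∧ b ∉ A := by
      intro j hj
      rw [mem_erase] at hj
      have h1 : φ (ind (S j)) z = y z := by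
        rw [hS j, Pi.add_apply, Pi.single_eq_of_ne (Ne.symm hj.1), add_zero]
      have h2 : ∃ b ∈ M, ind (S j) b ≠ ind A b := by
        by_contra hcon
        push Not at hcon
        exact hz ((hdep _ _ hcon).symm.trans h1)
      obtain ⟨b, hb, hb2⟩ := h2
      rw [mem_biUnion]
      refine ⟨b, hb, ?_⟩
      rw [mem_filter]
      refine ⟨hj.2, ?_⟩
      have hA' := (hJ j hj.2).1
      by_cases hbA : b ∈ A
      · rw [ind_apply, ind_apply, if_pos hbA, if_pos (hA' hbA)] at hb2
        exact absurd rfl hb2
      · refine ⟨?_, hbA⟩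
        by_contra hbS
        rw [ind_apply, ind_apply, if_neg hbA, if_neg hbS] at hb2
        exact hb2 rfl
    have hcard : (J.erase z).card ≤ K * ∑ i ∈ range (m + 1), K ^ i := by
      refine (card_le_card hsub).trans (card_biUnion_le.trans ?_)
      calc ∑ b ∈ M, (J.filter fun j => b ∈ S j ∧ b ∉ A).card
          ≤ ∑ _b ∈ M, ∑ i ∈ range (m + 1), K ^ i := by
            refine sum_le_sum fun b _ => ?_
            by_cases hbA : b ∈ A
            · rw [filter_false_of_mem (fun j _ h => h.2 hbA), card_empty]
              exact Nat.zero_le _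
            · refine ih (insert b A) (insert_nonempty _ _) _ fun j hj => ?_
              rw [mem_filter] at hj
              refine ⟨insert_subset hj.2.1 (hJ j hj.1).1, ?_⟩
              rw [card_insert_of_notMem hbA]
              have := (hJ j hj.1).2
              omega
        _ = M.card * ∑ i ∈ range (m + 1), K ^ i := by rw [sum_const, smul_eq_mul]
        _ ≤ _ := Nat.mul_le_mul_right _ hM
    have h1 : J.card ≤ (J.erase z).card + 1 := by
      have := pred_card_le_card_erase (s := J) (a := z)
      omega
    have h2 : ∑ i ∈ range (m + 1 + 1), K ^ i = K * ∑ i ∈ range (m + 1), K ^ i + 1 := by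
      rw [sum_range_succ', mul_sum]
      simp only [pow_succ, pow_zero]
      congr 1
      exact sum_congr rfl fun i _ => by ring
    omega

/-- **Negative answer to Q1, with an explicit bound.** If `φ` is a `K`-local mapping from `DIC_n`
to `XOR_n` whose inverse is `L`-Lipschitz, then `n ≤ 1 + K + ... + K^(⌊L⌋ - 1)`. -/
theorem result (n : ℕ) [NeZero n] (K : ℕ) (L : ℝ) (φ : Cube n ≃ Cube n) (hφ : IsMapping φ)
    (hloc : IsLocal K φ) (hlip : IsLipschitz L φ.symm) :
    n ≤ ∑ i ∈ range ⌊L⌋₊, K ^ i := by
  set y : Cube n := φ 0 with hy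
  set S : Fin n → Finset (Fin n) := fun j =>
    univ.filter fun i => φ.symm (y + Pi.single j 1) i ≠ 0 with hSdef
  have hz2 : ∀ a : ZMod 2, a ≠ 0 → a = 1 := by decide
  have hind : ∀ j, ind (S j) = φ.symm (y + Pi.single j 1) := by
    intro j
    funext i
    rw [ind_apply]
    by_cases h : φ.symm (y + Pi.single j 1) i = 0
    · rw [if_neg (by simp [hSdef, h]), h]
    · rw [if_pos (by simp [hSdef, h]), hz2 _ h]
  have hS : ∀ j, φ (ind (S j)) = y + Pi.single j 1 := fun j => by
    rw [hind j, Equiv.apply_symm_apply]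
  have h0S : ∀ j, (0 : Fin n) ∈ S j := by
    intro j
    have h1 := hφ (φ.symm (y + Pi.single j 1))
    rw [Equiv.apply_symm_apply] at h1
    have h2 : parity (y + Pi.single j 1) = 1 := by
      have h3 : parity y = 0 := by rw [hy, hφ 0]; rfl
      unfold parity at h3 ⊢
      simp only [Pi.add_apply]
      rw [sum_add_distrib, h3, zero_add, Finset.sum_pi_single']
      simp
    rw [h2] at h1
    simp only [hSdef, mem_filter, mem_univ, true_and]
    have h4 : φ.symm (y + Pi.single j 1) 0 = 1 := h1.symm
    rw [h4]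
    decide
  have hcardS : ∀ j, (S j).card ≤ ⌊L⌋₊ := by
    intro j
    apply Nat.le_floor
    have h1 := hlip (y + Pi.single j 1) y
    have h2 : hammingDist (φ.symm (y + Pi.single j 1)) (φ.symm y) = (S j).card := by
      have h3 : φ.symm y = 0 := by rw [hy, Equiv.symm_apply_apply]
      rw [h3, hammingDist]
      rfl
    have h3 : hammingDist (y + Pi.single j 1) y = 1 := by
      rw [hammingDist]
      have : (univ.filter fun i => (y + Pi.single j (1 : ZMod 2) : Cube n) i ≠ y i) = {j} := by
        ext i
        simp only [mem_filter, mem_univ, true_and, mem_singleton, Pi.add_apply]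
        constructor
        · intro h
          by_contra hij
          rw [Pi.single_eq_of_ne hij, add_zero] at h
          exact h rfl
        · rintro rfl
          rw [Pi.single_eq_same]
          intro h
          have := add_eq_left.mp h
          exact absurd this (by decide)
      rw [this, card_singleton]
    rw [h2, h3] at h1
    simpa using h1
  have hpos : 1 ≤ ⌊L⌋₊ := by
    have h1 : (S 0).Nonempty := ⟨0, h0S 0⟩
    exact (card_pos.mpr h1).trans_le (hcardS 0)
  obtain ⟨l, hl⟩ : ∃ l, ⌊L⌋₊ = l + 1 := ⟨⌊L⌋₊ - 1, by omega⟩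
  have := core φ φ.injective hloc y rfl S hS l {0} (singleton_nonempty _) univ (fun j _ => by
    refine ⟨by simpa using h0S j, ?_⟩
    rw [card_singleton]
    have := hcardS j
    omega)
  rw [card_univ, Fintype.card_fin] at this
  rw [hl]
  exact this

end Pool.Agent.Results.MP_5e3b67_co.NoLocalLipschitzInverse
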